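import Mathlib
import Pool.Agent.H25.Theta

namespace Pool.Agent.Results.MP_d9e015_nt.Odd

open H25.Theta Finset

def In (y : ℚ) (p : ℤ × ℤ) : Prop := ∃ r ∈ R, y = p.1 + p.2 * r

lemma parity {r : ℚ} (h : r ∈ R) : ∃ t ∈ R, r * r - r = 2 * t := by
  have ho : Odd (r.den : ℤ) := by exact_mod_cast mem_R.1 h
  obtain ⟨k, hk⟩ : Even (r.num * (r.num - r.den)) := by
    rcases Int.even_or_odd r.num with h | h
    exacts [h.mul_right _, (h.sub_odd ho).mul_left _]
  refine ⟨k * ((r.den : ℤ) : ℚ)⁻¹ * ((r.den : ℤ) : ℚ)⁻¹,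
    R.mul_mem (R.mul_mem (intCast_mem R _) (inv_odd _ ho)) (inv_odd _ ho), ?_⟩
  have h1 := congrArg (Int.cast : ℤ → ℚ) hk
  have h2 := Rat.mul_den_eq_num r
  push_cast at h1 ⊢
  rw [← h2] at h1
  field_simp
  linear_combination h1

def cond (m : ℕ) (p q : ℤ × ℤ) : Prop :=
  (m / m.gcd 512) % 2 = 1 ∧ (m.gcd 512 : ℤ) ∣ p.1 ∧ (m.gcd 512 : ℤ) ∣ p.2 ∧
  q.2 * (m.gcd 512 : ℤ) ^ 2 ∣ p.1 * (m ^ 2 + p.1) - q.1 * m ^ 2 ∧
  q.2 * (m.gcd 512 : ℤ) ^ 2 ∣ p.2 * (m ^ 2 + 2 * p.1) + p.2 ^ 2 ∧
  q.2 * (m.gcd 512 : ℤ) ^ 2 ∣ 2 * p.2 ^ 2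

instance (m : ℕ) (p q : ℤ × ℤ) : Decidable (cond m p q) := by unfold cond; infer_instance

lemma step {Y : ℚ} {m : ℕ} {p q : ℤ × ℤ} (h : In Y p) (hc : cond m p q) :
    In (Y + (Y / m) ^ 2) q ∧ Y / m ∈ R := by
  obtain ⟨r, hr, rfl⟩ := h
  obtain ⟨t, ht, h⟩ := parity hr
  obtain ⟨h0, ⟨a, ha⟩, ⟨b, hb⟩, ⟨c, h1⟩, ⟨d, h2⟩, e, h3⟩ := hc
  obtain ⟨o, hm⟩ := Nat.gcd_dvd_left m 512
  have hE : 0 < m.gcd 512 := Nat.gcd_pos_of_pos_right _ (by norm_num)
  generalize m.gcd 512 = E at *
  subst hm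
  rw [Nat.mul_div_cancel_left _ hE] at h0
  have ho := inv_odd o (by exact_mod_cast Nat.odd_iff.2 h0)
  have : (o : ℚ) ≠ 0 := by rintro h; norm_cast at h; omega
  have h1 := congrArg (Int.cast : ℤ → ℚ) h1
  have h2 := congrArg (Int.cast : ℤ → ℚ) h2
  have h3 := congrArg (Int.cast : ℤ → ℚ) h3
  refine ⟨⟨(c + d * r + e * t) * ((o : ℤ) : ℚ)⁻¹ * ((o : ℤ) : ℚ)⁻¹, R.mul_mem (R.mul_mem
    (R.add_mem (R.add_mem (intCast_mem R _) (R.mul_mem (intCast_mem R _) hr))
    (R.mul_mem (intCast_mem R _) ht)) ho) ho, ?_⟩, ?_⟩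
  · push_cast at h1 h2 h3 ⊢
    field_simp
    linear_combination h1 + r * h2 + t * h3 + (p.2 : ℚ) ^ 2 * h
  · have : ((p.1 : ℚ) + p.2 * r) / (E * o : ℕ) = (a + b * r) * ((o : ℤ) : ℚ)⁻¹ := by
      rw [ha, hb]; push_cast; field_simp
    rw [this]
    exact R.mul_mem (R.add_mem (intCast_mem R _) (R.mul_mem (intCast_mem R _) hr)) ho

def good (p : ℤ × ℤ) : Prop := 16 ∣ p.1 ∧ 16 ∣ p.2 ∧ p.2 ∣ 1024

instance (p : ℤ × ℤ) : Decidable (good p) := by unfold good; infer_instance

variable {y : ℕ → ℚ} (hy : ∀ n, 0 < n → y (n + 1) = y n + (y n / n) ^ 2)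
include hy

lemma big {s m : ℕ} {p q : ℤ × ℤ} (hm : 0 < m) (h : In (y (2 ^ s * m) / 4 ^ s) p) (hc : cond m p q) :
    In (y (2 ^ s * m + 1) / 4 ^ s) q := by
  have := (step h hc).1
  rw [hy _ (by positivity)]
  convert this using 1
  push_cast
  rw [show (4 : ℚ) ^ s = (2 ^ s) ^ 2 by rw [← pow_mul, mul_comm, pow_mul]; norm_num]
  field_simp

lemma small {s n : ℕ} {p : ℤ × ℤ} (hn : ¬ 2 ^ s ∣ n) (h : In (y n / 4 ^ s) p) (hg : good p) :
    In (y (n + 1) / 4 ^ s) p := by
  have h0 : n ≠ 0 := by rintro rfl; simp at hn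
  obtain ⟨e, o, ho, rfl⟩ := Nat.exists_eq_two_pow_mul_odd h0
  obtain ⟨k, rfl⟩ : ∃ k, s = e + k + 1 := Nat.exists_eq_add_of_lt
    (lt_of_not_ge fun h => hn ((pow_dvd_pow 2 h).mul_right _))
  obtain ⟨r, hr, h⟩ := h
  obtain ⟨⟨a, ha⟩, ⟨b, hb⟩, c, hc⟩ := hg
  have hi := inv_odd o (by exact_mod_cast ho)
  have : (o : ℚ) ≠ 0 := by rintro h; norm_cast at h; simp [h] at ho
  have h1 := R.mul_mem (R.add_mem (intCast_mem R a) (R.mul_mem (intCast_mem R b) hr)) hi
  refine ⟨_, R.add_mem hr (R.mul_mem (intCast_mem R (4 ^ k * c)) (R.mul_mem h1 h1)), ?_⟩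
  rw [hy _ (by positivity), (div_eq_iff (by positivity)).1 h]
  have hc := congrArg (Int.cast : ℤ → ℚ) hc
  rw [hb] at hc
  rw [ha, hb]
  push_cast at hc ⊢
  rw [pow_add, pow_add, show (4 : ℚ) ^ e = (2 ^ e) ^ 2 by rw [← pow_mul, mul_comm, pow_mul]; norm_num]
  field_simp
  linear_combination (4 ^ k * (a + b * r) ^ 2 / 16) * hc

lemma block {s m : ℕ} {p q : ℤ × ℤ} (hm : 0 < m) (h : In (y (2 ^ s * m) / 4 ^ s) p)
    (hc : cond m p q) (hg : good q) : ∀ j < 2 ^ s, In (y (2 ^ s * m + j + 1) / 4 ^ s) q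
  | 0, _ => big hy hm h hc
  | j + 1, hj => small hy (fun h => by
      have := Nat.le_of_dvd (by omega) ((Nat.dvd_add_right (Dvd.intro _ rfl)).1 h); omega)
      (block hm h hc hg j (by omega)) hg

def tb (i : ℕ) : ℤ × ℤ := [(64, 128), (80, 128), (80, 128), (16, 128), (16, 128), (32, 128),
  (32, 128), (32, 128), (32, 128), (432, 512), (176, 512), (240, 512), (496, 512), (256, 512),
  (256, 512), (256, 512), (256, 512)].getD i 0

omit hy in
lemma htb : ∀ i < 16, cond (16 + i) (tb i) (tb (i + 1)) ∧ good (tb (i + 1)) := by decide +kernel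

lemma chain {s : ℕ} (h : In (y (2 ^ s * 16) / 4 ^ s) (tb 0)) :
    ∀ i ≤ 16, In (y (2 ^ s * (16 + i)) / 4 ^ s) (tb i)
  | 0, _ => h
  | i + 1, hi => by
    have := block hy (by omega) (chain h i (by omega)) (htb i hi).1 (htb i hi).2 (2 ^ s - 1)
      (Nat.sub_lt (by positivity) one_pos)
    rwa [add_assoc, Nat.sub_add_cancel Nat.one_le_two_pow, ← Nat.mul_succ] at this

def t0 (i : ℕ) : ℤ × ℤ := [
  (2, 4194304), (6, 4194304), (15, 4194304), (40, 4194304), (140, 4194304), (924, 4194304),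
  (24640, 4194304), (4026432, 4194304), (3952768, 4194304), (3707008, 4194304), (4137088,
  4194304), (1138816, 4194304), (3163264, 4194304), (689280, 4194304), (824448, 4194304),
  (3724416, 4194304), (2177216, 4194304), (1296576, 4194304), (1551552, 4194304), (3390656,
  4194304), (1363392, 4194304), (2252224, 4194304), (3719616, 4194304), (1757632, 4194304),
  (93184, 4194304), (1141760, 4194304), (1403904, 4194304), (2452480, 4194304), (945152, 4194304),
  (1993728, 4194304), (158720, 4194304), (1207296, 4194304), (2740224, 4194304), (2740224,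
  4194304), (2740224, 4194304), (2740224, 4194304), (3788800, 4194304), (3788800, 4194304),
  (3788800, 4194304), (3788800, 4194304), (4050944, 4194304), (4050944, 4194304), (4050944,
  4194304), (4050944, 4194304), (905216, 4194304), (905216, 4194304), (905216, 4194304), (905216,
  4194304), (970752, 4194304), (970752, 4194304), (970752, 4194304), (970752, 4194304), (2019328,
  4194304), (2019328, 4194304), (2019328, 4194304), (2019328, 4194304), (184320, 4194304),
  (184320, 4194304), (184320, 4194304), (184320, 4194304), (1232896, 4194304), (1232896, 4194304),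
  (1232896, 4194304), (1232896, 4194304), (3235840, 4194304), (3235840, 4194304), (3235840,
  4194304), (3235840, 4194304), (3235840, 4194304), (3235840, 4194304), (3235840, 4194304),
  (3235840, 4194304), (90112, 4194304), (90112, 4194304), (90112, 4194304), (90112, 4194304),
  (90112, 4194304), (90112, 4194304), (90112, 4194304), (90112, 4194304), (352256, 4194304),
  (352256, 4194304), (352256, 4194304), (352256, 4194304), (352256, 4194304), (352256, 4194304),
  (352256, 4194304), (352256, 4194304), (1400832, 4194304), (1400832, 4194304), (1400832,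
  4194304), (1400832, 4194304), (1400832, 4194304), (1400832, 4194304), (1400832, 4194304),
  (1400832, 4194304), (417792, 4194304), (417792, 4194304), (417792, 4194304), (417792, 4194304),
  (417792, 4194304), (417792, 4194304), (417792, 4194304), (417792, 4194304), (1466368, 4194304),
  (1466368, 4194304), (1466368, 4194304), (1466368, 4194304), (1466368, 4194304), (1466368,
  4194304), (1466368, 4194304), (1466368, 4194304), (3825664, 4194304), (3825664, 4194304),
  (3825664, 4194304), (3825664, 4194304), (3825664, 4194304), (3825664, 4194304), (3825664,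
  4194304), (3825664, 4194304), (679936, 4194304), (679936, 4194304), (679936, 4194304), (679936,
  4194304), (679936, 4194304), (679936, 4194304), (679936, 4194304), (679936, 4194304), (3731456,
  4194304), (3731456, 4194304), (3731456, 4194304), (3731456, 4194304), (585728, 4194304),
  (585728, 4194304), (585728, 4194304), (585728, 4194304), (847872, 4194304), (847872, 4194304),
  (847872, 4194304), (847872, 4194304), (1896448, 4194304), (1896448, 4194304), (1896448,
  4194304), (1896448, 4194304), (3010560, 4194304), (3010560, 4194304), (3010560, 4194304),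
  (3010560, 4194304), (4059136, 4194304), (4059136, 4194304), (4059136, 4194304), (4059136,
  4194304), (2224128, 4194304), (2224128, 4194304), (2224128, 4194304), (2224128, 4194304),
  (3272704, 4194304), (3272704, 4194304), (3272704, 4194304), (3272704, 4194304), (2895872,
  4194304), (2895872, 4194304), (2895872, 4194304), (2895872, 4194304), (3944448, 4194304),
  (3944448, 4194304), (3944448, 4194304), (3944448, 4194304), (12288, 4194304), (12288, 4194304),
  (12288, 4194304), (12288, 4194304), (1060864, 4194304), (1060864, 4194304), (1060864, 4194304),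
  (1060864, 4194304), (2174976, 4194304), (2174976, 4194304), (2174976, 4194304), (2174976,
  4194304), (3223552, 4194304), (3223552, 4194304), (3223552, 4194304), (3223552, 4194304),
  (1388544, 4194304), (1388544, 4194304), (1388544, 4194304), (1388544, 4194304), (2437120,
  4194304), (2437120, 4194304), (2437120, 4194304), (2437120, 4194304), (2310144, 4194304),
  (2310144, 4194304), (2310144, 4194304), (2310144, 4194304), (2310144, 4194304), (2310144,
  4194304), (2310144, 4194304), (2310144, 4194304), (2310144, 4194304), (2310144, 4194304),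
  (2310144, 4194304), (2310144, 4194304), (2310144, 4194304), (2310144, 4194304), (2310144,
  4194304), (2310144, 4194304), (3358720, 4194304), (3358720, 4194304), (3358720, 4194304),
  (3358720, 4194304), (3358720, 4194304), (3358720, 4194304), (3358720, 4194304), (3358720,
  4194304), (3358720, 4194304), (3358720, 4194304), (3358720, 4194304), (3358720, 4194304),
  (3358720, 4194304), (3358720, 4194304), (3358720, 4194304), (3358720, 4194304), (1523712,
  4194304), (1523712, 4194304), (1523712, 4194304), (1523712, 4194304), (1523712, 4194304),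
  (1523712, 4194304), (1523712, 4194304), (1523712, 4194304), (1523712, 4194304), (1523712,
  4194304), (1523712, 4194304), (1523712, 4194304), (1523712, 4194304), (1523712, 4194304),
  (1523712, 4194304), (1523712, 4194304), (2572288, 4194304), (2572288, 4194304), (2572288,
  4194304), (2572288, 4194304), (2572288, 4194304), (2572288, 4194304), (2572288, 4194304),
  (2572288, 4194304), (2572288, 4194304), (2572288, 4194304), (2572288, 4194304), (2572288,
  4194304), (2572288, 4194304), (2572288, 4194304), (2572288, 4194304), (16384, 32768)].getD i 0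

omit hy in
lemma ht0 : ∀ i < 255, cond (i + 1) (t0 i) (t0 (i + 1)) := by decide +kernel

lemma start (h : y 1 = 2) : ∀ i ≤ 255, In (y (i + 1)) (t0 i)
  | 0, _ => ⟨0, R.zero_mem, by rw [show t0 0 = (2, 4194304) from rfl]; simp [h]⟩
  | i + 1, hi => by
    rw [hy _ (by omega)]
    exact (step (start h i (by omega)) (ht0 i hi)).1

lemma top (h : y 1 = 2) : ∀ s, In (y (2 ^ (s + 4) * 16) / 4 ^ (s + 4)) (tb 0)
  | 0 => by
    obtain ⟨r, hr, h⟩ := start hy h 255 le_rfl
    refine ⟨r, hr, ?_⟩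
    rw [show t0 255 = (16384, 32768) from rfl] at h
    norm_num [tb] at h ⊢
    rw [h]; ring
  | s + 1 => by
    obtain ⟨r, hr, h⟩ := chain hy (top h s) 16 le_rfl
    refine ⟨r, hr, ?_⟩
    rw [show 2 ^ (s + 1 + 4) * 16 = 2 ^ (s + 4) * (16 + 16) by ring, add_right_comm, pow_succ (4 : ℚ),
      ← div_div, h]
    norm_num [tb]
    ring

lemma all (h : y 1 = 2) (n : ℕ) : y (n + 1) / (n + 1 : ℕ) ∈ R := by
  rcases lt_or_ge n 256 with hn | hn
  · rcases lt_or_ge n 255 with hn | h1
    · exact (step (start hy h n hn.le) (ht0 n hn)).2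
    obtain rfl : n = 255 := by omega
    exact (step (start hy h 255 le_rfl) (q := (0, 1)) (by decide +kernel)).2
  have h1 := Nat.pow_log_le_self 2 (by omega : n ≠ 0)
  have h2 := Nat.lt_pow_succ_log_self one_lt_two n
  obtain ⟨s, hs⟩ : ∃ s, Nat.log 2 n = s + 4 + 4 :=
    Nat.exists_eq_add_of_le' (Nat.le_log_of_pow_le one_lt_two (by omega : 2 ^ 8 ≤ n))
  rw [hs] at h1 h2
  have hp : 0 < 2 ^ (s + 4) := by positivity
  obtain ⟨i, hi⟩ := Nat.exists_eq_add_of_le ((Nat.le_div_iff_mul_le hp).2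
    (by rw [pow_add] at h1; omega : 16 * 2 ^ (s + 4) ≤ n))
  have hi' : i < 16 := by
    have := (Nat.div_lt_iff_lt_mul hp).2 (by
      have e : 2 ^ (s + 4 + 4).succ = 32 * 2 ^ (s + 4) := by rw [Nat.succ_eq_add_one]; ring
      omega :
      n < 32 * 2 ^ (s + 4))
    omega
  obtain ⟨r, hr, h3⟩ := block hy (by omega) (chain hy (top hy h s) i hi'.le) (htb i hi').1
    (htb i hi').2 _ (Nat.mod_lt n hp)
  rw [← hi, Nat.div_add_mod] at h3
  obtain ⟨⟨a, ha⟩, ⟨b, hb⟩, -⟩ := (htb i hi').2
  obtain ⟨e, o, ho, h4⟩ := Nat.exists_eq_two_pow_mul_odd (by omega : n + 1 ≠ 0)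
  obtain ⟨k, hk⟩ : ∃ k, 2 * (s + 4) + 4 = e + k := Nat.exists_eq_add_of_le (by
    have : 2 ^ e ≤ 2 ^ (s + 4 + 4).succ := (Nat.le_of_dvd n.succ_pos ⟨o, h4⟩).trans h2
    have := (Nat.pow_le_pow_iff_right one_lt_two).1 this
    omega)
  have : (o : ℚ) ≠ 0 := by rintro h; norm_cast at h; simp [h] at ho
  have h5 : y (n + 1) / (n + 1 : ℕ) = (2 ^ k : ℕ) * (a + b * r) * ((o : ℤ) : ℚ)⁻¹ := by
    have : (2 : ℚ) ^ (2 * (s + 4) + 4) = 2 ^ (e + k) := by rw [hk]
    rw [pow_add, pow_add _ e, pow_mul, show (2 : ℚ) ^ 2 = 4 by norm_num] at this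
    rw [(div_eq_iff (by positivity)).1 h3, h4, ha, hb]
    push_cast
    field_simp
    linear_combination (a + b * r) * this
  rw [h5]
  exact R.mul_mem (R.mul_mem (natCast_mem R _) (R.add_mem (intCast_mem R _)
    (R.mul_mem (intCast_mem R _) hr))) (inv_odd _ (by exact_mod_cast ho))

omit hy

theorem result (x : ℕ → ℚ) (h0 : x 0 = 1)
    (h : ∀ n, 1 ≤ n → x n = (1 + ∑ i ∈ range n, x i ^ 2) / n) (n : ℕ) : Odd (x n).den := by
  cases n with
  | zero => simp [h0]
  | succ n =>
    rw [h _ n.succ_pos]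
    refine mem_R.1 (all (y := fun n => 1 + ∑ i ∈ range n, x i ^ 2) (fun n hn => ?_) ?_ n)
    · rw [sum_range_succ, ← h n hn, add_assoc]
    · simp [h0]; norm_num

end Pool.Agent.Results.MP_d9e015_nt.Odd
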